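import Pool.Agent.helper62.K3.Defs

/-!
HK project (MP_90cd86_gt), module CHA: the quotient of the pulled back form and the form does not
depend on the charts.
-/

open scoped Manifold ContDiff Topology
open Set

noncomputable section

namespace Pool.Agent.helper62.K3

section
variable {S : Type} [TopologicalSpace S] [ChartedSpace (ℂ × ℂ) S] [IsManifold 𝓘(ℂ, ℂ × ℂ) ω S]

/-- A map between manifolds read in two charts. -/
theorem CHA_smooth (g : S → S) (hg : ContMDiff 𝓘(ℂ, ℂ × ℂ) 𝓘(ℂ, ℂ × ℂ) ω g)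
    (e e' : OpenPartialHomeomorph S (ℂ × ℂ)) (h : e ∈ atlas (ℂ × ℂ) S)
    (h' : e' ∈ atlas (ℂ × ℂ) S) (p : S) (hp : p ∈ e.source) (hp' : g p ∈ e'.source) :
    ContDiffAt ℂ ω (fun z => e' (g (e.symm z))) (e p) := by
  have m : e ∈ IsManifold.maximalAtlas 𝓘(ℂ, ℂ × ℂ) ω S := IsManifold.subset_maximalAtlas h
  have m' : e' ∈ IsManifold.maximalAtlas 𝓘(ℂ, ℂ × ℂ) ω S := IsManifold.subset_maximalAtlas h'
  have s1 : ContMDiffAt 𝓘(ℂ, ℂ × ℂ) 𝓘(ℂ, ℂ × ℂ) ω e.symm (e p) :=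
    contMDiffAt_symm_of_mem_maximalAtlas m (e.map_source hp)
  have e1 : e.symm (e p) = p := e.left_inv hp
  have s2 : ContMDiffAt 𝓘(ℂ, ℂ × ℂ) 𝓘(ℂ, ℂ × ℂ) ω g (e.symm (e p)) := hg _
  have s3 : ContMDiffAt 𝓘(ℂ, ℂ × ℂ) 𝓘(ℂ, ℂ × ℂ) ω e' (g (e.symm (e p))) := by
    rw [e1]
    exact contMDiffAt_of_mem_maximalAtlas m' hp'
  have s4 : ContMDiffAt 𝓘(ℂ, ℂ × ℂ) 𝓘(ℂ, ℂ × ℂ) ω (fun z => e' (g (e.symm z))) (e p) :=
    s3.comp (e p) (s2.comp (e p) s1)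
  exact s4.contDiffAt

theorem CHA_smooth_id (e e' : OpenPartialHomeomorph S (ℂ × ℂ)) (h : e ∈ atlas (ℂ × ℂ) S)
    (h' : e' ∈ atlas (ℂ × ℂ) S) (p : S) (hp : p ∈ e.source) (hp' : p ∈ e'.source) :
    ContDiffAt ℂ ω (fun z => e' (e.symm z)) (e p) :=
  CHA_smooth (fun x => x) contMDiff_id e e' h h' p hp hp'

omit [ChartedSpace (ℂ × ℂ) S] [IsManifold 𝓘(ℂ, ℂ × ℂ) ω S] in
/-- A chart composed with its inverse, near a point. -/
theorem CHA_left (e : OpenPartialHomeomorph S (ℂ × ℂ)) (g : S → S) (hg : Continuous g) (p : S)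
    (e₂ : OpenPartialHomeomorph S (ℂ × ℂ)) (hp : p ∈ e₂.source) (hp' : g p ∈ e.source) :
    ∀ᶠ z in 𝓝 (e₂ p), e.symm (e (g (e₂.symm z))) = g (e₂.symm z) := by
  have hc : ContinuousAt (fun z => g (e₂.symm z)) (e₂ p) := by
    have h1 : ContinuousAt e₂.symm (e₂ p) := e₂.continuousAt_symm (e₂.map_source hp)
    exact hg.continuousAt.comp h1
  have h2 : (fun z => g (e₂.symm z)) (e₂ p) ∈ e.source := by
    simpa [e₂.left_inv hp] using hp'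
  filter_upwards [hc.preimage_mem_nhds (e.open_source.mem_nhds h2)] with z hz
  exact e.left_inv hz

/-- hk:CHA independence of the charts -/
theorem CHA (w : OpenPartialHomeomorph S (ℂ × ℂ) → S → ℂ) (hw : IsVol w) (g : S → S)
    (hg : ContMDiff 𝓘(ℂ, ℂ × ℂ) 𝓘(ℂ, ℂ × ℂ) ω g)
    (e₁ e₂ e₁' e₂' : OpenPartialHomeomorph S (ℂ × ℂ)) (h1 : e₁ ∈ atlas (ℂ × ℂ) S)
    (h2 : e₂ ∈ atlas (ℂ × ℂ) S) (h1' : e₁' ∈ atlas (ℂ × ℂ) S) (h2' : e₂' ∈ atlas (ℂ × ℂ) S)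
    (p : S) (hp1 : p ∈ e₁.source) (hp2 : p ∈ e₂.source) (hp1' : g p ∈ e₁'.source)
    (hp2' : g p ∈ e₂'.source) : jac w g e₁ e₁' p = jac w g e₂ e₂' p := by
  obtain ⟨hne, -, htr⟩ := hw
  have d1 : DifferentiableAt ℂ (fun z => e₁' (g (e₁.symm z))) (e₁ p) :=
    (CHA_smooth g hg e₁ e₁' h1 h1' p hp1 hp1').differentiableAt (by simp)
  have dT : DifferentiableAt ℂ (fun z => e₁ (e₂.symm z)) (e₂ p) :=
    (CHA_smooth_id e₂ e₁ h2 h1 p hp2 hp1).differentiableAt (by simp)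
  have dT' : DifferentiableAt ℂ (fun z => e₂' (e₁'.symm z)) (e₁' (g p)) :=
    (CHA_smooth_id e₁' e₂' h1' h2' (g p) hp1' hp2').differentiableAt (by simp)
  have hT : (fun z => e₁ (e₂.symm z)) (e₂ p) = e₁ p := by simp [e₂.left_inv hp2]
  have hG : (fun z => e₁' (g (e₁.symm z))) (e₁ p) = e₁' (g p) := by simp [e₁.left_inv hp1]
  have hD1 := d1.hasFDerivAt
  have hDT := dT.hasFDerivAt
  have hDT' := dT'.hasFDerivAt
  rw [← hT] at hD1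
  have c1 : HasFDerivAt (fun z => e₁' (g (e₁.symm (e₁ (e₂.symm z)))))
      ((fderiv ℂ (fun z => e₁' (g (e₁.symm z))) (e₁ p)).comp
        (fderiv ℂ (fun z => e₁ (e₂.symm z)) (e₂ p))) (e₂ p) := by
    have := hD1.comp (e₂ p) hDT
    rw [hT] at this
    exact this
  have hV : (fun z => e₁' (g (e₁.symm (e₁ (e₂.symm z))))) (e₂ p) = e₁' (g p) := by
    simp [e₂.left_inv hp2, e₁.left_inv hp1]
  rw [← hV] at hDT'
  have c2 := hDT'.comp (e₂ p) c1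
  rw [hV] at c2
  have c3 : (fun z => e₂' (g (e₂.symm z))) =ᶠ[𝓝 (e₂ p)]
      ((fun z => e₂' (e₁'.symm z)) ∘ fun z => e₁' (g (e₁.symm (e₁ (e₂.symm z))))) := by
    have a1 := CHA_left e₁ (fun x => x) continuous_id p e₂ hp2 hp1
    have a2 := CHA_left e₁' g hg.continuous p e₂ hp2 hp1'
    filter_upwards [a1, a2] with z hz1 hz2
    simp only [Function.comp_apply]
    rw [hz1, hz2]
  have c4 := c2.congr_of_eventuallyEq c3
  have hdet : (fderiv ℂ (fun z => e₂' (g (e₂.symm z))) (e₂ p)).det =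
      (fderiv ℂ (fun z => e₂' (e₁'.symm z)) (e₁' (g p))).det *
        ((fderiv ℂ (fun z => e₁' (g (e₁.symm z))) (e₁ p)).det *
          (fderiv ℂ (fun z => e₁ (e₂.symm z)) (e₂ p)).det) := by
    rw [c4.fderiv]
    have dc : ∀ A B : (ℂ × ℂ) →L[ℂ] (ℂ × ℂ), (A.comp B).det = A.det * B.det := by
      intro A B
      exact LinearMap.det_comp (A : (ℂ × ℂ) →ₗ[ℂ] (ℂ × ℂ)) (B : (ℂ × ℂ) →ₗ[ℂ] (ℂ × ℂ))
    rw [dc, dc]
  have w1 := htr e₁' h1' e₂' h2' (g p) ⟨hp1', hp2'⟩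
  have w2 := htr e₂ h2 e₁ h1 p ⟨hp2, hp1⟩
  have n2 := hne e₂ h2 p hp2
  have n1 := hne e₁ h1 p hp1
  have nT : (fderiv ℂ (fun z => e₁ (e₂.symm z)) (e₂ p)).det ≠ 0 := by
    intro h0
    rw [h0, mul_zero] at w2
    exact n2 w2
  unfold jac
  rw [hdet, w1, w2]
  field_simp

end

end Pool.Agent.helper62.K3
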