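import Pool.Agent.helper71.HK.CHA

/-!
HK project (MP_90cd86_gt), module CHB: the quotient of the pulled back form and the form is constant.
-/

open scoped Manifold ContDiff Topology
open Set

noncomputable section

namespace Pool.Agent.helper62.K3

/-- The determinant of an endomorphism of `ℂ × ℂ`. -/
theorem CHB_det (L : (ℂ × ℂ) →L[ℂ] (ℂ × ℂ)) :
    L.det = (L (1, 0)).1 * (L (0, 1)).2 - (L (0, 1)).1 * (L (1, 0)).2 := by
  have h : L.det = LinearMap.det (L : (ℂ × ℂ) →ₗ[ℂ] (ℂ × ℂ)) := rfl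
  rw [h, ← LinearMap.det_toMatrix (Module.Basis.finTwoProd ℂ), Matrix.det_fin_two]
  simp [LinearMap.toMatrix_apply]

theorem CHB_differentiable_det {E : Type*} [NormedAddCommGroup E] [NormedSpace ℂ E]
    (F : E → (ℂ × ℂ) →L[ℂ] (ℂ × ℂ)) (x : E) (hF : DifferentiableAt ℂ F x) :
    DifferentiableAt ℂ (fun y => (F y).det) x := by
  have h : (fun y => (F y).det) = fun y =>
      (F y (1, 0)).1 * (F y (0, 1)).2 - (F y (0, 1)).1 * (F y (1, 0)).2 := by
    funext y
    exact CHB_det (F y)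
  rw [h]
  have a : ∀ v : ℂ × ℂ, DifferentiableAt ℂ (fun y => F y v) x := fun v =>
    hF.clm_apply (differentiableAt_const v)
  have a1 : ∀ v : ℂ × ℂ, DifferentiableAt ℂ (fun y => (F y v).1) x := fun v => (a v).fst
  have a2 : ∀ v : ℂ × ℂ, DifferentiableAt ℂ (fun y => (F y v).2) x := fun v => (a v).snd
  exact ((a1 _).mul (a2 _)).sub ((a1 _).mul (a2 _))

section
variable {S : Type} [TopologicalSpace S] [ChartedSpace (ℂ × ℂ) S] [IsManifold 𝓘(ℂ, ℂ × ℂ) ω S]

/-- The quotient in fixed charts is differentiable. -/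
theorem CHB_diff (w : OpenPartialHomeomorph S (ℂ × ℂ) → S → ℂ) (hw : IsVol w) (g : S → S)
    (hg : ContMDiff 𝓘(ℂ, ℂ × ℂ) 𝓘(ℂ, ℂ × ℂ) ω g)
    (e e' : OpenPartialHomeomorph S (ℂ × ℂ)) (h : e ∈ atlas (ℂ × ℂ) S)
    (h' : e' ∈ atlas (ℂ × ℂ) S) (p : S) (hp : p ∈ e.source) (hp' : g p ∈ e'.source) :
    DifferentiableAt ℂ (fun z => w e' (g (e.symm z)) *
      (fderiv ℂ (fun z => e' (g (e.symm z))) z).det / w e (e.symm z)) (e p) := by
  obtain ⟨hne, hdf, -⟩ := hw
  have hs := CHA_smooth g hg e e' h h' p hp hp'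
  have d1 : DifferentiableAt ℂ (fun z => e' (g (e.symm z))) (e p) :=
    hs.differentiableAt (by simp)
  have d2 : DifferentiableAt ℂ (fderiv ℂ (fun z => e' (g (e.symm z)))) (e p) := by
    have := hs.fderiv_right (m := 1) (by simp)
    exact this.differentiableAt (by simp)
  have d3 := CHB_differentiable_det _ _ d2
  have hG : (fun z => e' (g (e.symm z))) (e p) = e' (g p) := by simp [e.left_inv hp]
  have d4 : DifferentiableAt ℂ (fun z => w e' (g (e.symm z))) (e p) := by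
    have a1 : DifferentiableAt ℂ (fun z => w e' (e'.symm z)) (e' (g p)) :=
      (hdf e' h').differentiableAt (e'.open_target.mem_nhds (e'.map_source hp'))
    rw [← hG] at a1
    have a2 := a1.comp (e p) d1
    refine a2.congr_of_eventuallyEq ?_
    filter_upwards [CHA_left e' g hg.continuous p e hp hp'] with z hz
    simp only [Function.comp_apply]
    rw [hz]
  have d5 : DifferentiableAt ℂ (fun z => w e (e.symm z)) (e p) :=
    (hdf e h).differentiableAt (e.open_target.mem_nhds (e.map_source hp))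
  have n5 : w e (e.symm (e p)) ≠ 0 := by
    rw [e.left_inv hp]
    exact hne e h p hp
  have d6 : DifferentiableAt ℂ (fun z => (w e (e.symm z))⁻¹) (e p) :=
    DifferentiableAt.fun_inv (h := fun z => w e (e.symm z)) d5 n5
  have d7 := (d4.mul d3).mul d6
  simp only [div_eq_mul_inv]
  exact d7

/-- hk:CHB it is constant (from CHA) -/
theorem CHB [CompactSpace S] [T2Space S] [ConnectedSpace S]
    (w : OpenPartialHomeomorph S (ℂ × ℂ) → S → ℂ) (hw : IsVol w) (g : S → S)
    (hg : ContMDiff 𝓘(ℂ, ℂ × ℂ) 𝓘(ℂ, ℂ × ℂ) ω g) :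
    ∃ c : ℂ, ∀ e ∈ atlas (ℂ × ℂ) S, ∀ e' ∈ atlas (ℂ × ℂ) S, ∀ p ∈ e.source, g p ∈ e'.source →
      jac w g e e' p = c := by
  have hM : IsManifold 𝓘(ℂ, ℂ × ℂ) 1 S := IsManifold.of_le (n := ω) (by simp)
  let J : S → ℂ := fun p => jac w g (chartAt (ℂ × ℂ) p) (chartAt (ℂ × ℂ) (g p)) p
  have hJ : ∀ e ∈ atlas (ℂ × ℂ) S, ∀ e' ∈ atlas (ℂ × ℂ) S, ∀ p ∈ e.source, g p ∈ e'.source →
      jac w g e e' p = J p := by
    intro e he e' he' p hp hp'
    exact CHA w hw g hg _ _ _ _ he (chart_mem_atlas _ _) he' (chart_mem_atlas _ _) p hp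
      (mem_chart_source _ _) hp' (mem_chart_source _ _)
  have hd : MDifferentiable 𝓘(ℂ, ℂ × ℂ) 𝓘(ℂ, ℂ) J := by
    intro p
    set e := chartAt (ℂ × ℂ) p with hedef
    set e' := chartAt (ℂ × ℂ) (g p) with hedef'
    have he : e ∈ atlas (ℂ × ℂ) S := chart_mem_atlas _ _
    have he' : e' ∈ atlas (ℂ × ℂ) S := chart_mem_atlas _ _
    have hp : p ∈ e.source := mem_chart_source _ _
    have hp' : g p ∈ e'.source := mem_chart_source _ _
    have b1 := CHB_diff w hw g hg e e' he he' p hp hp'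
    have m1 : MDifferentiableAt 𝓘(ℂ, ℂ × ℂ) 𝓘(ℂ, ℂ × ℂ) e p :=
      (contMDiffAt_of_mem_maximalAtlas (n := ω) (IsManifold.subset_maximalAtlas he)
        hp).mdifferentiableAt (by simp)
    have m2 := b1.mdifferentiableAt.comp p m1
    refine m2.congr_of_eventuallyEq ?_
    have u1 : ∀ᶠ q in 𝓝 p, q ∈ e.source := e.open_source.mem_nhds hp
    have u2 : ∀ᶠ q in 𝓝 p, g q ∈ e'.source :=
      hg.continuous.continuousAt.preimage_mem_nhds (e'.open_source.mem_nhds hp')
    filter_upwards [u1, u2] with q hq hq'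
    rw [← hJ e he e' he' q hq hq']
    simp only [Function.comp_apply, jac]
    rw [e.left_inv hq]
  obtain ⟨c, hc⟩ := hd.exists_eq_const_of_compactSpace
  refine ⟨c, fun e he e' he' p hp hp' => ?_⟩
  rw [hJ e he e' he' p hp hp', hc]
  rfl

end

end Pool.Agent.helper62.K3
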